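import Mathlib

/-!
# Sands-Sauer-Woodrow with acyclic colour classes

`E c u v`: arc of colour `c` from `u` to `v`. `Rg E σ`: the structure of a minimal counterexample whose colour classes
are acyclic: `σ v` is the only vertex from which `v` cannot be reached by a monochromatic path.
`source`: for every colour `z` there is a vertex `m` which reaches all vertices except `σ⁻¹ m` by paths of colour different
from `z`, and there is no path of colour different from `z` from `σ⁻¹ m` to `m`.
`config`: so there is a directed triangle `z, y, z` whose first arc is bypassed by a path of the third colour.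
-/

set_option autoImplicit false

namespace Pool.Agent.Helper85.SSW

open Relation

section Cyc

variable {V : Type*}

/-- a relation on a finite set without source contains an induced cycle -/
theorem exists_cyc [Finite V] (B : V → V → Prop) (hirr : ∀ v, ¬ B v v) (A : Set V) (hA : A.Nonempty)
    (h : ∀ m ∈ A, ∃ v ∈ A, B v m) :
    ∃ (U : Set V) (f : V → V), U.Nonempty ∧ (∀ u ∈ U, f u ∈ U ∧ B u (f u)) ∧ ∀ u ∈ U, ∀ w ∈ U, B u w → w = f u := by
  classical
  have := Fintype.ofFinite V
  obtain ⟨U, ⟨hUne, hU⟩, hmin⟩ : ∃ U : Finset V, (U.Nonempty ∧ ∀ u ∈ U, ∃ v ∈ U, B v u) ∧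
      ∀ W : Finset V, (W.Nonempty ∧ ∀ u ∈ W, ∃ v ∈ W, B v u) → U.card ≤ W.card := by
    have hex : ∃ n, ∃ U : Finset V, U.card = n ∧ (U.Nonempty ∧ ∀ u ∈ U, ∃ v ∈ U, B v u) :=
      ⟨_, A.toFinset, rfl, by simpa using hA, fun u hu => by
        obtain ⟨v, hv, hv2⟩ := h u (Set.mem_toFinset.1 hu)
        exact ⟨v, Set.mem_toFinset.2 hv, hv2⟩⟩
    obtain ⟨U, hU1, hU2⟩ := Nat.find_spec hex
    exact ⟨U, hU2, fun W hW => hU1 ▸ Nat.find_min' hex ⟨W, rfl, hW⟩⟩
  have hf : ∀ u, ∃ w, u ∈ U → w ∈ U ∧ B u w ∧ ∀ v ∈ U, B v w → v = u := by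
    intro u
    by_cases hu : u ∈ U
    · obtain ⟨v, hv, hvu⟩ := hU u hu
      have hne : (U.erase u).Nonempty := ⟨v, Finset.mem_erase.2 ⟨fun e => hirr u (e ▸ hvu), hv⟩⟩
      have h1 : ¬ ∀ w ∈ U.erase u, ∃ v ∈ U.erase u, B v w := by
        intro h2
        have h3 := hmin (U.erase u) ⟨hne, h2⟩
        have h4 := Finset.card_erase_lt_of_mem hu
        omega
      push Not at h1
      obtain ⟨w, hw, hw2⟩ := h1
      have hwU := (Finset.mem_erase.1 hw).2
      have huniq : ∀ v ∈ U, B v w → v = u := by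
        intro v hv hvw
        by_contra hne
        exact hw2 v (Finset.mem_erase.2 ⟨hne, hv⟩) hvw
      obtain ⟨v', hv', hv'w⟩ := hU w hwU
      have := huniq v' hv' hv'w
      exact ⟨w, fun _ => ⟨hwU, this ▸ hv'w, huniq⟩⟩
    · exact ⟨u, fun h => absurd h hu⟩
  choose f hf using hf
  have hmaps : ∀ u ∈ U, f u ∈ U := fun u hu => (hf u hu).1
  have hinj : Set.InjOn f U := by
    intro u hu u' hu' he
    exact (hf u' hu').2.2 u hu (he ▸ (hf u hu).2.1)
  have hsurj : ∀ w ∈ U, ∃ u ∈ U, f u = w := by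
    intro w hw
    have h1 : U.image f = U := by
      refine Finset.eq_of_subset_of_card_le (fun w hw => ?_) ?_
      · obtain ⟨u, hu, rfl⟩ := Finset.mem_image.1 hw
        exact hmaps u hu
      · rw [Finset.card_image_of_injOn hinj]
    rw [← h1] at hw
    exact Finset.mem_image.1 hw
  refine ⟨U, f, hUne, fun u hu => ⟨hmaps u hu, (hf u hu).2.1⟩, fun u hu w hw huw => ?_⟩
  obtain ⟨u', hu', rfl⟩ := hsurj w hw
  rw [(hf u' hu').2.2 u hu huw]

/-- minimal elements -/
theorem exists_min [Finite V] (R : V → V → Prop) (hR : ∀ v, ¬ TransGen R v v) (A : Set V) (hA : A.Nonempty) :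
    ∃ a ∈ A, ∀ b ∈ A, ¬ TransGen R b a := by
  have hwf : WellFounded (TransGen R) := by
    have : IsTrans V (TransGen R) := ⟨fun _ _ _ h1 h2 => h1.trans h2⟩
    have : Std.Irrefl (TransGen R) := ⟨hR⟩
    exact Finite.wellFounded_of_trans_of_irrefl _
  exact ⟨hwf.min A hA, hwf.min_mem A hA, fun b hb => hwf.not_lt_min A hb⟩

/-- maximal elements -/
theorem exists_max [Finite V] (R : V → V → Prop) (hR : ∀ v, ¬ TransGen R v v) (A : Set V) (hA : A.Nonempty) :
    ∃ a ∈ A, ∀ b ∈ A, ¬ TransGen R a b := by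
  obtain ⟨a, ha, h⟩ := exists_min (fun u v => R v u) (fun v hv => hR v (transGen_swap.1 hv)) A hA
  exact ⟨a, ha, fun b hb hab => h b hb (transGen_swap.2 hab)⟩

end Cyc

variable {V : Type*} {E : Fin 3 → V → V → Prop} {σ : Equiv.Perm V}

/-- The structure of a minimal counterexample with acyclic colour classes. -/
structure Rg (E : Fin 3 → V → V → Prop) (σ : Equiv.Perm V) : Prop where
  tot : ∀ u v, u ≠ v → (∃ c, E c u v) ∨ ∃ c, E c v u
  acyc : ∀ c v, ¬ TransGen (E c) v v
  norb : ∀ c d e u v w, c ≠ d → d ≠ e → c ≠ e → E c u v → E d v w → E e w u → False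
  nofix : ∀ v, σ v ≠ v
  hole : ∀ c v, ¬ TransGen (E c) (σ v) v
  full : ∀ u v, u ≠ v → u ≠ σ v → ∃ c, TransGen (E c) u v
  dom : ∀ m, ∃ c, TransGen (fun a b => E c a b ∧ a ≠ m ∧ b ≠ m) (σ m) (σ.symm m)

section Main

variable (H : Rg E σ) {x y z : Fin 3} (hxy : x ≠ y) (hyz : y ≠ z) (hxz : x ≠ z)

include hxy hyz hxz in
theorem three (c : Fin 3) : c = x ∨ c = y ∨ c = z := by
  revert x y z c
  decide

include H hxy hyz hxz in
theorem full3 {u v : V} (h1 : u ≠ v) (h2 : u ≠ σ v) : TransGen (E x) u v ∨ TransGen (E y) u v ∨ TransGen (E z) u v := by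
  obtain ⟨c, hc⟩ := H.full u v h1 h2
  rcases three hxy hyz hxz c with rfl | rfl | rfl
  · exact Or.inl hc
  · exact Or.inr (Or.inl hc)
  · exact Or.inr (Or.inr hc)

include H in
theorem asym {c : Fin 3} {u v : V} (h1 : TransGen (E c) u v) (h2 : TransGen (E c) v u) : False :=
  H.acyc c u (h1.trans h2)

include H in
theorem ne_of {c : Fin 3} {u v : V} (h1 : TransGen (E c) u v) : u ≠ v := fun e => H.acyc c u (e ▸ h1)

include H in
theorem inv_ne (v : V) : σ.symm v ≠ σ v := by
  intro h
  have h1 : v ≠ σ v := (H.nofix v).symm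
  rcases H.tot v (σ v) h1 with ⟨c, hc⟩ | ⟨c, hc⟩
  · rw [← h] at hc
    exact H.hole c (σ.symm v) (by rw [Equiv.apply_symm_apply]; exact TransGen.single hc)
  · exact H.hole c v (TransGen.single hc)

/-- The relation whose sources are wanted. -/
def Bz (E : Fin 3 → V → V → Prop) (σ : Equiv.Perm V) (x y : Fin 3) (u v : V) : Prop :=
  u ≠ v ∧ ¬ TransGen (E x) v u ∧ ¬ TransGen (E y) v u ∧
    ¬ (v = σ u ∧ ¬ TransGen (E x) u v ∧ ¬ TransGen (E y) u v)

theorem Bz_symm {x y : Fin 3} {u v : V} : Bz E σ x y u v ↔ Bz E σ y x u v := by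
  unfold Bz
  tauto

theorem not_Bz {x y : Fin 3} {u v : V} (h : ¬ Bz E σ x y u v) (hne : u ≠ v) :
    TransGen (E x) v u ∨ TransGen (E y) v u ∨ v = σ u := by
  unfold Bz at h
  by_contra hcon
  push Not at hcon
  exact h ⟨hne, hcon.1, hcon.2.1, fun h' => hcon.2.2 h'.1⟩

/-- a step back along an exact side of colour `z` -/
def hst (σ : Equiv.Perm V) (U : Set V) (f : V → V) (w' w : V) : Prop := w' ∈ U ∧ w = f w' ∧ σ w = w'

variable {U : Set V} {f : V → V} (hf : ∀ u ∈ U, f u ∈ U ∧ Bz E σ x y u (f u))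
  (huni : ∀ u ∈ U, ∀ w ∈ U, Bz E σ x y u w → w = f u)

include hf in
theorem hst_mem {b w : V} (hb : b ∈ U) (h : ReflTransGen (hst σ U f) b w) : w ∈ U := by
  induction h with
  | refl => exact hb
  | tail _ h _ =>
    obtain ⟨h1, rfl, -⟩ := h
    exact (hf _ h1).1

include H hxy hyz hxz hf in
theorem hst_z {w' w : V} (h : hst σ U f w' w) :
    TransGen (E z) w w' ∧ ¬ TransGen (E x) w w' ∧ ¬ TransGen (E y) w w' := by
  obtain ⟨h1, rfl, h3⟩ := h
  obtain ⟨b1, b2, b3, -⟩ := (hf _ h1).2
  refine ⟨?_, b2, b3⟩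
  have h4 : f w' ≠ σ w' := by
    intro e
    have h5 := inv_ne H w'
    have h6 : σ.symm w' = f w' := by rw [← h3, Equiv.symm_apply_apply, h3]
    exact h5 (h6.trans e)
  rcases full3 H hxy hyz hxz b1.symm h4 with h5 | h5 | h5
  · exact absurd h5 b2
  · exact absurd h5 b3
  · exact h5

include H hxy hyz hxz hf huni in
/-- no two consecutive steps of different colours -/
theorem xy_adj {a : V} (ha : a ∈ U) (h1 : TransGen (E x) a (f a)) (h2 : TransGen (E y) (f a) (f (f a))) : False := by
  obtain ⟨hbU, b1, b2, b3, b4⟩ := hf a ha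
  obtain ⟨hcU, c1, c2, c3, c4⟩ := hf (f a) hbU
  obtain ⟨b, hb⟩ : ∃ b, b = f a := ⟨_, rfl⟩
  obtain ⟨c, hc⟩ : ∃ c, c = f (f a) := ⟨_, rfl⟩
  rw [← hc] at h2 hcU c1 c2 c3 c4
  rw [← hb] at h1 h2 hbU b1 b2 b3 b4 c1 c2 c3 c4
  have hca : c ≠ a := by
    rintro rfl
    exact b3 h2
  have hx : ¬ TransGen (E x) c a := fun h => c2 (h.trans h1)
  have hy : ¬ TransGen (E y) c a := fun h => b3 (h2.trans h)
  have hnB : ¬ Bz E σ x y a c := by
    intro h
    exact c1 ((huni a ha c hcU h).trans hb.symm).symm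
  rcases not_Bz hnB hca.symm with h | h | h
  · exact hx h
  · exact hy h
  · have e1 : TransGen (E z) b a := by
      rcases full3 H hxy hyz hxz b1.symm (fun e => c1 (e.trans h.symm)) with h5 | h5 | h5
      · exact absurd h5 b2
      · exact absurd h5 b3
      · exact h5
    have e2 : TransGen (E z) c b := by
      rcases full3 H hxy hyz hxz c1.symm (fun e => b1 (σ.injective (h.symm.trans e))) with h5 | h5 | h5
      · exact absurd h5 c2
      · exact absurd h5 c3
      · exact h5
    exact H.hole z a (h ▸ e2.trans e1)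

include H hxy hyz hxz hf in
theorem first_z {a w : V} (ha : a ∈ U) (h1 : TransGen (E x) a (f a)) (h : hst σ U f (f a) w) : TransGen (E z) (f a) a := by
  obtain ⟨hbU, b1, b2, b3, b4⟩ := hf a ha
  obtain ⟨c1, c2, c3⟩ := hst_z H hxy hyz hxz hf h
  have hwa : w ≠ a := by
    rintro rfl
    exact c2 h1
  have hba : f a ≠ σ a := by
    intro e
    exact hwa (σ.injective (h.2.2.trans e))
  rcases full3 H hxy hyz hxz b1.symm hba with h5 | h5 | h5
  · exact absurd h5 b2
  · exact absurd h5 b3
  · exact h5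

include H hxy hyz hxz hf huni in
/-- forward run lemma -/
theorem run_f {a : V} (ha : a ∈ U) (h1 : TransGen (E x) a (f a)) {w : V} (h : ReflTransGen (hst σ U f) (f a) w) :
    w = f a ∨ (TransGen (E x) a w ∧ TransGen (E z) w a ∧ TransGen (E z) w (f a)) := by
  have hbU := (hf a ha).1
  obtain ⟨b1, b2, b3, b4⟩ := (hf a ha).2
  induction h with
  | refl => exact Or.inl rfl
  | tail hr hs ih =>
    rename_i w' w
    obtain ⟨c1, c2, c3⟩ := hst_z H hxy hyz hxz hf hs
    have hwU : w ∈ U := hst_mem hf hbU (hr.tail hs)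
    have hσ : σ w = w' := hs.2.2
    have key : TransGen (E z) w a → TransGen (E z) w (f a) → TransGen (E x) a w' → a ≠ w' →
        (TransGen (E x) a w ∧ TransGen (E z) w a ∧ TransGen (E z) w (f a)) := by
      intro k1 k2 k3 k4
      have hwa : w ≠ a := ne_of H k1
      have hwb : w ≠ f a := ne_of H k2
      have hnB : ¬ Bz E σ x y a w := fun h => hwb (huni a ha w hwU h)
      have hyw : TransGen (E y) w a := by
        rcases not_Bz hnB hwa.symm with h | h | h
        · exact absurd (h.trans k3) c2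
        · exact h
        · exact absurd k1 (h ▸ H.hole z a)
      refine ⟨?_, k1, k2⟩
      rcases full3 H hxy hyz hxz hwa.symm (fun e => k4 (e.trans hσ)) with h5 | h5 | h5
      · exact h5
      · exact (asym H h5 hyw).elim
      · exact (asym H h5 k1).elim
    right
    rcases ih with rfl | ⟨i1, i2, i3⟩
    · have e1 := first_z H hxy hyz hxz hf ha h1 hs
      exact key (c1.trans e1) c1 h1 b1
    · exact key (c1.trans i2) (c1.trans i3) i1 (ne_of H i2).symm

include H hxy hyz hxz hf huni in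
/-- backward run lemma -/
theorem run_b {v : V} (hv : v ∈ U) (h1 : TransGen (E y) v (f v)) {w : V} (h : ReflTransGen (hst σ U f) w v) (hw : w ∈ U) :
    w = v ∨ (TransGen (E y) w (f v) ∧ TransGen (E z) (f v) w ∧ TransGen (E z) v w) := by
  have hcU := (hf v hv).1
  obtain ⟨b1, b2, b3, b4⟩ := (hf v hv).2
  revert hw
  induction h using ReflTransGen.head_induction_on with
  | refl => exact fun _ => Or.inl rfl
  | head hs hr ih =>
    rename_i w w1
    intro hwU
    obtain ⟨c1, c2, c3⟩ := hst_z H hxy hyz hxz hf hs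
    have hw1U : w1 ∈ U := hst_mem hf hwU (ReflTransGen.single hs)
    have hσ : σ w1 = w := hs.2.2
    have key : TransGen (E z) (f v) w → TransGen (E z) v w → TransGen (E y) w1 (f v) → f v ≠ w1 →
        (TransGen (E y) w (f v) ∧ TransGen (E z) (f v) w ∧ TransGen (E z) v w) := by
      intro k1 k2 k3 k4
      have hwc : f v ≠ w := ne_of H k1
      have hnB : ¬ Bz E σ x y w (f v) := fun h => k4 ((huni w hwU (f v) hcU h).trans hs.2.1.symm)
      have hxw : TransGen (E x) (f v) w := by
        rcases not_Bz hnB hwc.symm with h | h | h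
        · exact h
        · exact absurd (k3.trans h) c3
        · exact absurd k1 (h ▸ H.hole z w)
      refine ⟨?_, k1, k2⟩
      rcases full3 H hxy hyz hxz hwc.symm (fun e => k4 (σ.injective (hσ.trans e)).symm) with h5 | h5 | h5
      · exact (asym H h5 hxw).elim
      · exact h5
      · exact (asym H h5 k1).elim
    right
    rcases ih hw1U with rfl | ⟨i1, i2, i3⟩
    · have hcw : f w1 ≠ w := by
        intro e
        rw [e] at h1
        exact c3 h1
      have e1 : TransGen (E z) (f w1) w1 := by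
        rcases full3 H hxy hyz hxz b1.symm (fun e => hcw (e.trans hσ)) with h5 | h5 | h5
        · exact absurd h5 b2
        · exact absurd h5 b3
        · exact h5
      exact key (e1.trans c1) c1 h1 b1.symm
    · exact key (i2.trans c1) (i3.trans c1) i1 (ne_of H i2)

include H hxy hyz hxz hf huni in
theorem run_xy {a : V} (ha : a ∈ U) (h1 : TransGen (E x) a (f a)) {v : V} (h : ReflTransGen (hst σ U f) (f a) v)
    (h2 : TransGen (E y) v (f v)) : False := by
  have hbU := (hf a ha).1
  have hvU := hst_mem hf hbU h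
  by_cases hvb : v = f a
  · rw [hvb] at h2
    exact xy_adj H hxy hyz hxz hf huni ha h1 h2
  · rcases run_f H hxy hyz hxz hf huni ha h1 h with h3 | ⟨f1, f2, f3⟩
    · exact hvb h3
    rcases run_b H hxy hyz hxz hf huni hvU h2 h hbU with h3 | ⟨g1, g2, g3⟩
    · exact hvb h3.symm
    have hba : TransGen (E z) (f a) a := by
      rcases ReflTransGen.cases_head h with h3 | ⟨w, hw, -⟩
      · exact absurd h3.symm hvb
      · exact first_z H hxy hyz hxz hf ha h1 hw
    obtain ⟨b1, b2, b3, b4⟩ := (hf a ha).2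
    obtain ⟨c1, c2, c3, c4⟩ := (hf v hvU).2
    have hca : TransGen (E z) (f v) a := g2.trans hba
    have hne : f v ≠ a := ne_of H hca
    have hB : Bz E σ x y a (f v) := by
      refine ⟨hne.symm, fun h => c2 (h.trans f1), fun h => b3 (g1.trans h), fun h => ?_⟩
      exact H.hole z a (h.1 ▸ hca)
    exact ne_of H g2 (huni a ha (f v) (hf v hvU).1 hB)

include H hxy hyz hxz hf in
theorem typ {u : V} (hu : u ∈ U) : hst σ U f u (f u) ∨ TransGen (E x) u (f u) ∨ TransGen (E y) u (f u) := by
  obtain ⟨b1, b2, b3, b4⟩ := (hf u hu).2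
  by_cases h : σ (f u) = u
  · exact Or.inl ⟨hu, rfl, h⟩
  · right
    rcases full3 H hxy hyz hxz b1 (fun e => h e.symm) with h5 | h5 | h5
    · exact Or.inl h5
    · exact Or.inr h5
    · by_contra hcon
      push Not at hcon
      have h6 : f u ≠ σ u := fun e => b4 ⟨e, hcon.1, hcon.2⟩
      rcases full3 H hxy hyz hxz b1.symm h6 with h7 | h7 | h7
      · exact b2 h7
      · exact b3 h7
      · exact asym H h5 h7

include H hxy hyz hxz hf in
/-- the end of a run -/
theorem run_end [Finite V] {b : V} (hb : b ∈ U) : ∃ v, ReflTransGen (hst σ U f) b v ∧ (TransGen (E x) v (f v) ∨ TransGen (E y) v (f v)) := by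
  obtain ⟨v, hv, hmin⟩ := exists_min (E z) (H.acyc z) {v | ReflTransGen (hst σ U f) b v} ⟨b, ReflTransGen.refl⟩
  have hvU := hst_mem hf hb hv
  refine ⟨v, hv, ?_⟩
  rcases typ H hxy hyz hxz hf hvU with h | h
  · exact absurd (hst_z H hxy hyz hxz hf h).1 (hmin (f v) (hv.tail h))
  · exact h

include H hxy hyz hxz hf huni in
theorem no_x [Finite V] {a : V} (ha : a ∈ U) : ¬ TransGen (E x) a (f a) := by
  intro h1
  obtain ⟨u, ⟨huU, hu⟩, hmax⟩ := exists_max (E x) (H.acyc x) {u | u ∈ U ∧ TransGen (E x) u (f u)} ⟨a, ha, h1⟩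
  obtain ⟨v, hv, h2⟩ := run_end H hxy hyz hxz hf (hf u huU).1
  have hvU := hst_mem hf (hf u huU).1 hv
  rcases h2 with h2 | h2
  · refine hmax v ⟨hvU, h2⟩ ?_
    rcases run_f H hxy hyz hxz hf huni huU hu hv with h3 | h3
    · rw [h3]
      exact hu
    · exact h3.1
  · exact run_xy H hxy hyz hxz hf huni huU hu hv h2

include H hxy hyz hxz in
/-- The relation `Bz` is well-founded. -/
theorem wf [Finite V] : WellFounded (Bz E σ x y) := by
  rw [WellFounded.wellFounded_iff_has_min]
  intro A hA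
  by_contra hcon
  push Not at hcon
  obtain ⟨U, f, hne, hf, huni⟩ := exists_cyc (Bz E σ x y) (fun v h => h.1 rfl) A hA hcon
  have hf' : ∀ u ∈ U, f u ∈ U ∧ Bz E σ y x u (f u) := fun u hu => ⟨(hf u hu).1, Bz_symm.1 (hf u hu).2⟩
  have huni' : ∀ u ∈ U, ∀ w ∈ U, Bz E σ y x u w → w = f u := fun u hu w hw h => huni u hu w hw (Bz_symm.1 h)
  obtain ⟨u, hu⟩ := hne
  obtain ⟨v, hv, h2⟩ := run_end H hxy hyz hxz hf hu
  have hvU := hst_mem hf hu hv
  rcases h2 with h2 | h2
  · exact no_x H hxy hyz hxz hf huni hvU h2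
  · exact no_x H hxy.symm hxz hyz hf' huni' hvU h2

include H hxy hyz hxz in
/-- The relation `Bz` has a source. -/
theorem source [Finite V] [Nonempty V] : ∃ m, ∀ v, ¬ Bz E σ x y v m := by
  obtain ⟨m, -, hm⟩ := (wf H hxy hyz hxz).has_min Set.univ Set.univ_nonempty
  exact ⟨m, fun v => hm v (Set.mem_univ v)⟩

include H hxy hyz hxz in
theorem config_x {m : V} (hz : E z (σ.symm m) m) (hm : ∀ v, v ≠ m → v ≠ σ.symm m → TransGen (E x) m v ∨ TransGen (E y) m v)
    (hx : TransGen (E x) m (σ m)) : ∃ w, E z m (σ m) ∧ E y (σ m) w ∧ E z w m := by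
  have hback : ∀ c, ¬ TransGen (E c) m (σ.symm m) := by
    intro c h
    exact H.hole c (σ.symm m) (by rw [Equiv.apply_symm_apply]; exact h)
  obtain ⟨c, hc⟩ := H.dom m
  have hmono : ∀ {p q : V}, TransGen (fun a b => E c a b ∧ a ≠ m ∧ b ≠ m) p q → TransGen (E c) p q :=
    fun h => TransGen.mono (fun _ _ h => h.1) _ _ h
  have hcy : c = y := by
    rcases three hxy hyz hxz c with rfl | rfl | rfl
    · exact absurd (hx.trans (hmono hc)) (hback _)
    · rfl
    · exact absurd ((hmono hc).tail hz) (H.hole _ m)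
  subst hcy
  -- the vertices of the path point to `m`
  have step : ∀ p p' : V, E c p p' → E z p' m → p ≠ m → p ≠ σ m → TransGen (E c) (σ m) p →
      TransGen (E c) p (σ.symm m) → E z p m := by
    intro p p' hpp hz' hpm hps h1 h2
    have n1 : ¬ TransGen (E c) m p := fun h => hback _ (h.trans h2)
    have n2 : ¬ TransGen (E c) p m := fun h => H.hole _ m (h1.trans h)
    have n3 : TransGen (E x) m p := (hm p hpm (ne_of H h2)).resolve_right n1
    have n4 : TransGen (E z) p m := by
      rcases full3 H hxy hyz hxz hpm hps with h | h | h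
      · exact (asym H h n3).elim
      · exact absurd h n2
      · exact h
    rcases H.tot m p hpm.symm with ⟨e, he⟩ | ⟨e, he⟩
    · exfalso
      rcases three hxy hyz hxz e with rfl | rfl | rfl
      · exact H.norb _ _ _ m p p' hxy hyz hxz he hpp hz'
      · exact n1 (TransGen.single he)
      · exact asym H (TransGen.single he) n4
    · rcases three hxy hyz hxz e with rfl | rfl | rfl
      · exact (asym H (TransGen.single he) n3).elim
      · exact absurd (TransGen.single he) n2
      · exact he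
  have hQ : ∀ p, TransGen (fun a b => E c a b ∧ a ≠ m ∧ b ≠ m) p (σ.symm m) → TransGen (E c) (σ m) p → E z p m := by
    intro p hp
    induction hp using TransGen.head_induction_on with
    | single h =>
      intro h1
      exact step _ _ h.1 hz h.2.1 (ne_of H h1).symm h1 (TransGen.single h.1)
    | head h hr ih =>
      intro h1
      exact step _ _ h.1 (ih (h1.tail h.1)) h.2.1 (ne_of H h1).symm h1 (TransGen.head h.1 (hmono hr))
  obtain ⟨w, hw, hwz⟩ : ∃ w, E c (σ m) w ∧ E z w m := by
    rcases TransGen.head'_iff.1 hc with ⟨w, hw, hr⟩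
    refine ⟨w, hw.1, ?_⟩
    rcases (reflTransGen_iff_eq_or_transGen.1 hr) with h | h
    · rw [← h]
      exact hz
    · exact hQ w h (TransGen.single hw.1)
  refine ⟨w, ?_, hw, hwz⟩
  rcases H.tot m (σ m) (H.nofix m).symm with ⟨e, he⟩ | ⟨e, he⟩
  · rcases three hxy hyz hxz e with rfl | rfl | rfl
    · exact (H.norb _ _ _ m (σ m) w hxy hyz hxz he hw hwz).elim
    · exact absurd ((TransGen.single he).trans (hmono hc)) (hback _)
    · exact he
  · exact absurd (TransGen.single he) (H.hole _ m)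

include H in
theorem back (c : Fin 3) (m : V) : ¬ TransGen (E c) m (σ.symm m) := by
  intro h
  exact H.hole c (σ.symm m) (by rw [Equiv.apply_symm_apply]; exact h)

include H in
theorem symm_ne (m : V) : σ.symm m ≠ m := by
  intro e
  exact H.nofix (σ.symm m) (by rw [Equiv.apply_symm_apply]; exact e.symm)

include H hxy hyz hxz in
/-- a vertex reached by an arc of colour `z` from its predecessor and left in colour `x`: there is a vertex `p` with
outgoing arcs of the colours `x`, `y` and an incoming arc of colour `y`, which is reached from `m` in colour `z` only -/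
theorem wall {m : V} (hz : E z (σ.symm m) m) (hx : E x m (σ m)) : ∃ p, p ≠ m ∧ p ≠ σ.symm m ∧
    ¬ TransGen (E x) m p ∧ ¬ TransGen (E y) m p ∧ (∃ u, E y u p) ∧ (∃ v, E x p v) ∧ ∃ v, E y p v := by
  obtain ⟨c, hc⟩ := H.dom m
  have hmono : ∀ {p q : V}, TransGen (fun a b => E c a b ∧ a ≠ m ∧ b ≠ m) p q → TransGen (E c) p q :=
    fun h => TransGen.mono (fun _ _ h => h.1) _ _ h
  have hcy : c = y := by
    rcases three hxy hyz hxz c with rfl | rfl | rfl
    · exact absurd ((TransGen.single hx).trans (hmono hc)) (back H _ _)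
    · rfl
    · exact absurd ((hmono hc).tail hz) (H.hole _ m)
  subst hcy
  have out : ∀ {c' : Fin 3} {a b : V}, TransGen (E c') a b → ∃ v, E c' a v := by
    intro c' a b h
    obtain ⟨v, hv, -⟩ := TransGen.head'_iff.1 h
    exact ⟨v, hv⟩
  by_contra hcon
  push Not at hcon
  -- all the vertices of the path point to `m` in colour `z`
  have step : ∀ p p' : V, E c p p' → E z p' m → (p' ≠ σ.symm m → ¬ ∃ e, E e m p') → p ≠ m → p ≠ σ m →
      TransGen (E c) (σ m) p → TransGen (E c) p (σ.symm m) → E z p m ∧ ¬ ∃ e, E e m p := by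
    intro p p' hpp hz' _ hpm hps h1 h2
    have n1 : ¬ TransGen (E c) m p := fun h => back H _ _ (h.trans h2)
    have n2 : ¬ TransGen (E c) p m := fun h => H.hole _ m (h1.trans h)
    have n5 : p ≠ σ.symm m := ne_of H h2
    have n6 : ∃ v, E c p v := ⟨p', hpp⟩
    -- no path of colour `x` from `p` to `m`
    have n3 : ¬ TransGen (E x) p m := by
      intro h
      have n7 : ¬ TransGen (E x) m p := fun h' => asym H h h'
      obtain ⟨v, hv⟩ := n6
      obtain ⟨u, -, hu⟩ := TransGen.tail'_iff.1 h1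
      exact hcon p hpm n5 n7 n1 ⟨u, hu⟩ (out h) v hv
    have n4 : TransGen (E z) p m := by
      rcases full3 H hxy hyz hxz hpm hps with h | h | h
      · exact absurd h n3
      · exact absurd h n2
      · exact h
    have n8 : ¬ ∃ e, E e m p := by
      rintro ⟨e, he⟩
      rcases three hxy hyz hxz e with rfl | rfl | rfl
      · exact H.norb _ _ _ m p p' hxy hyz hxz he hpp hz'
      · exact n1 (TransGen.single he)
      · exact asym H (TransGen.single he) n4
    refine ⟨?_, n8⟩
    rcases H.tot m p hpm.symm with he | ⟨e, he⟩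
    · exact absurd he n8
    · rcases three hxy hyz hxz e with rfl | rfl | rfl
      · exact absurd (TransGen.single he) n3
      · exact absurd (TransGen.single he) n2
      · exact he
  have hQ : ∀ p, TransGen (fun a b => E c a b ∧ a ≠ m ∧ b ≠ m) p (σ.symm m) → TransGen (E c) (σ m) p →
      E z p m ∧ ¬ ∃ e, E e m p := by
    intro p hp
    induction hp using TransGen.head_induction_on with
    | single h =>
      intro h1
      exact step _ _ h.1 hz (fun h => absurd rfl h) h.2.1 (ne_of H h1).symm h1 (TransGen.single h.1)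
    | head h hr ih =>
      intro h1
      have h3 := ih (h1.tail h.1)
      exact step _ _ h.1 h3.1 (fun _ => h3.2) h.2.1 (ne_of H h1).symm h1 (TransGen.head h.1 (hmono hr))
  obtain ⟨w, hw, hwz⟩ : ∃ w, E c (σ m) w ∧ E z w m := by
    rcases TransGen.head'_iff.1 hc with ⟨w, hw, hr⟩
    refine ⟨w, hw.1, ?_⟩
    rcases (reflTransGen_iff_eq_or_transGen.1 hr) with h | h
    · rw [← h]
      exact hz
    · exact (hQ w h (TransGen.single hw.1)).1
  exact H.norb _ _ _ m (σ m) w hxy hyz hxz hx hw hwz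

include H in
/-- In a minimal counterexample with acyclic classes, for every colour `z` some vertex has incoming arcs of colour `z` and of
another colour, and outgoing arcs of all colours. -/
theorem three_out [Finite V] [Nonempty V] (z : Fin 3) :
    ∃ r : V, (∃ u, E z u r) ∧ (∃ d, d ≠ z ∧ ∃ u, E d u r) ∧ ∀ c, ∃ v, E c r v := by
  obtain ⟨x, y, hxy, hyz, hxz⟩ : ∃ x y : Fin 3, x ≠ y ∧ y ≠ z ∧ x ≠ z := by
    revert z
    decide
  by_contra hcon
  push Not at hcon
  have hall : ∀ m, E z (σ.symm m) m ∧ E z m (σ m) := by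
    intro m
    induction m using (wf H hxy hyz hxz).induction with
    | _ m ih =>
      have hz : E z (σ.symm m) m := by
        by_cases hB : Bz E σ x y (σ.symm m) m
        · have h1 := (ih _ hB).2
          rwa [Equiv.apply_symm_apply] at h1
        · have h2 : ¬ TransGen (E x) (σ.symm m) m ∧ ¬ TransGen (E y) (σ.symm m) m := by
            by_contra h3
            exact hB ⟨symm_ne H m, back H x m, back H y m, fun h => h3 h.2⟩
          rcases H.tot (σ.symm m) m (symm_ne H m) with ⟨e, he⟩ | ⟨e, he⟩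
          · rcases three hxy hyz hxz e with rfl | rfl | rfl
            · exact absurd (TransGen.single he) h2.1
            · exact absurd (TransGen.single he) h2.2
            · exact he
          · exact absurd (TransGen.single he) (back H e m)
      refine ⟨hz, ?_⟩
      have bad : ∀ p, p ≠ m → p ≠ σ.symm m → ¬ TransGen (E x) m p → ¬ TransGen (E y) m p →
          (∃ d, d ≠ z ∧ ∃ u, E d u p) → (∃ v, E x p v) → (∃ v, E y p v) → False := by
        intro p h1 h2 h3 h4 h7 h5 h6
        have hB : Bz E σ x y p m := ⟨h1, h3, h4, fun h => h2 (by rw [h.1, Equiv.symm_apply_apply])⟩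
        obtain ⟨k1, k2⟩ := ih p hB
        obtain ⟨c, hc⟩ := hcon p ⟨_, k1⟩ h7
        rcases three hxy hyz hxz c with rfl | rfl | rfl
        · obtain ⟨v, hv⟩ := h5
          exact hc v hv
        · obtain ⟨v, hv⟩ := h6
          exact hc v hv
        · exact hc _ k2
      rcases H.tot m (σ m) (H.nofix m).symm with ⟨e, he⟩ | ⟨e, he⟩
      · rcases three hxy hyz hxz e with rfl | rfl | rfl
        · obtain ⟨p, h1, h2, h3, h4, h7, h5, h6⟩ := wall H hxy hyz hxz hz he
          exact (bad p h1 h2 h3 h4 ⟨_, hyz, h7⟩ h5 h6).elim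
        · obtain ⟨p, h1, h2, h3, h4, h7, h5, h6⟩ := wall H hxy.symm hxz hyz hz he
          exact (bad p h1 h2 h4 h3 ⟨_, hxz, h7⟩ h6 h5).elim
        · exact he
      · exact absurd (TransGen.single he) (H.hole _ m)
  obtain ⟨a, -, ha⟩ := exists_min (E z) (H.acyc z) Set.univ Set.univ_nonempty
  exact ha (σ.symm a) (Set.mem_univ _) (TransGen.single (hall a).1)

include H in
/-- In a minimal counterexample with acyclic classes, for every colour `z` there is a directed triangle with colours
`z, b, z` whose first arc is bypassed by a path of the third colour `a`. -/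
theorem config [Finite V] [Nonempty V] (z : Fin 3) : ∃ (a b : Fin 3) (u v w : V), a ≠ b ∧ b ≠ z ∧ a ≠ z ∧
    E z u v ∧ E b v w ∧ E z w u ∧ TransGen (E a) u v := by
  obtain ⟨x, y, hxy, hyz, hxz⟩ : ∃ x y : Fin 3, x ≠ y ∧ y ≠ z ∧ x ≠ z := by
    revert z
    decide
  obtain ⟨m, hm⟩ := source H hxy hyz hxz
  have hm1 : ∀ v, v ≠ m → v ≠ σ.symm m → TransGen (E x) m v ∨ TransGen (E y) m v := by
    intro v h1 h2
    rcases not_Bz (hm v) h1 with h | h | h
    · exact Or.inl h
    · exact Or.inr h
    · exact absurd ((Equiv.symm_apply_eq σ).2 h).symm h2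
  have hback : ∀ c, ¬ TransGen (E c) m (σ.symm m) := by
    intro c h
    exact H.hole c (σ.symm m) (by rw [Equiv.apply_symm_apply]; exact h)
  have hne : σ.symm m ≠ m := by
    intro e
    exact H.nofix (σ.symm m) (by rw [Equiv.apply_symm_apply]; exact e.symm)
  have hz : E z (σ.symm m) m := by
    have h1 := hm (σ.symm m)
    have h2 : ¬ TransGen (E x) (σ.symm m) m ∧ ¬ TransGen (E y) (σ.symm m) m := by
      by_contra h3
      refine h1 ⟨hne, hback x, hback y, fun h => h3 h.2⟩
    rcases H.tot (σ.symm m) m hne with ⟨e, he⟩ | ⟨e, he⟩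
    · rcases three hxy hyz hxz e with rfl | rfl | rfl
      · exact absurd (TransGen.single he) h2.1
      · exact absurd (TransGen.single he) h2.2
      · exact he
    · exact absurd (TransGen.single he) (hback e)
  rcases hm1 (σ m) (H.nofix m) (inv_ne H m).symm with h | h
  · obtain ⟨w, w1, w2, w3⟩ := config_x H hxy hyz hxz hz hm1 h
    exact ⟨x, y, m, σ m, w, hxy, hyz, hxz, w1, w2, w3, h⟩
  · obtain ⟨w, w1, w2, w3⟩ := config_x H hxy.symm hxz hyz hz (fun v h1 h2 => (hm1 v h1 h2).symm) h
    exact ⟨y, x, m, σ m, w, hxy.symm, hxz, hyz, w1, w2, w3, h⟩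

/-- The reversed structure. -/
theorem Rg.rev (H : Rg E σ) : Rg (fun c u v => E c v u) σ.symm where
  tot u v h := H.tot v u h.symm
  acyc c v h := H.acyc c v (transGen_swap.1 h)
  norb c d e u v w h1 h2 h3 k1 k2 k3 := H.norb e d c u w v h2.symm h1.symm h3.symm k3 k2 k1
  nofix v h := by
    refine H.nofix (σ.symm v) ?_
    rw [Equiv.apply_symm_apply, h]
  hole c v h := by
    refine H.hole c (σ.symm v) ?_
    rw [Equiv.apply_symm_apply]
    exact transGen_swap.1 h
  full u v h1 h2 := by
    obtain ⟨c, hc⟩ := H.full v u h1.symm (fun e => h2 (by rw [e, Equiv.symm_apply_apply]))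
    exact ⟨c, transGen_swap.2 hc⟩
  dom m := by
    obtain ⟨c, hc⟩ := H.dom m
    refine ⟨c, ?_⟩
    rw [Equiv.symm_symm]
    have h1 := transGen_swap.2 hc
    exact TransGen.mono (fun a b h => ⟨h.1, h.2.2, h.2.1⟩) _ _ h1

end Main

/-- a `z, b, z` triangle `u → v → w → u` whose arc `u → v` (colour `z`, before the arc of colour `b`) is bypassed by a path
of the third colour -/
def Byp1 {V : Type*} (E : Fin 3 → V → V → Prop) (z : Fin 3) : Prop :=
  ∃ (a b : Fin 3) (u v w : V), a ≠ b ∧ b ≠ z ∧ a ≠ z ∧ E z u v ∧ E b v w ∧ E z w u ∧ TransGen (E a) u v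

/-- a `z, z, b` triangle `u → v → w → u` whose arc `u → v` (colour `z`, after the arc of colour `b`) is bypassed by a path
of the third colour -/
def Byp2 {V : Type*} (E : Fin 3 → V → V → Prop) (z : Fin 3) : Prop :=
  ∃ (a b : Fin 3) (u v w : V), a ≠ b ∧ b ≠ z ∧ a ≠ z ∧ E z u v ∧ E z v w ∧ E b w u ∧ TransGen (E a) u v

/-- a vertex with incoming arcs of colour `z` and of another colour, and outgoing arcs of all three colours -/
def Out3 {V : Type*} (E : Fin 3 → V → V → Prop) (z : Fin 3) : Prop :=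
  ∃ r : V, (∃ u, E z u r) ∧ (∃ d, d ≠ z ∧ ∃ u, E d u r) ∧ ∀ c, ∃ v, E c r v

/-- a vertex with outgoing arcs of colour `z` and of another colour, and incoming arcs of all three colours -/
def In3 {V : Type*} (E : Fin 3 → V → V → Prop) (z : Fin 3) : Prop :=
  ∃ r : V, (∃ v, E z r v) ∧ (∃ d, d ≠ z ∧ ∃ v, E d r v) ∧ ∀ c, ∃ u, E c u r

theorem byp1_of_rg [Finite V] [Nonempty V] (H : Rg E σ) (z : Fin 3) : Byp1 E z := config H z

theorem byp2_of_rg [Finite V] [Nonempty V] (H : Rg E σ) (z : Fin 3) : Byp2 E z := by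
  obtain ⟨a, b, u, v, w, h1, h2, h3, h4, h5, h6, h7⟩ := config H.rev z
  exact ⟨a, b, v, u, w, h1, h2, h3, h4, h6, h5, transGen_swap.1 h7⟩

theorem out3_of_rg [Finite V] [Nonempty V] (H : Rg E σ) (z : Fin 3) : Out3 E z := three_out H z

theorem in3_of_rg [Finite V] [Nonempty V] (H : Rg E σ) (z : Fin 3) : In3 E z := three_out H.rev z

theorem main_aux (z : Fin 3) (n : ℕ) : ∀ (V : Type*) [Fintype V] [Nonempty V], Fintype.card V = n →
    ∀ E : Fin 3 → V → V → Prop, (∀ u v, u ≠ v → (∃ c, E c u v) ∨ ∃ c, E c v u) → (∀ c v, ¬ TransGen (E c) v v) →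
      (∀ c d e u v w, c ≠ d → d ≠ e → c ≠ e → E c u v → E d v w → E e w u → False) →
      (¬ Byp1 E z ∨ ¬ Byp2 E z ∨ ¬ Out3 E z ∨ ¬ In3 E z) → ∃ v, ∀ w, w ≠ v → ∃ c, TransGen (E c) v w := by
  induction n using Nat.strong_induction_on with
  | _ n IH =>
    intro V _ _ hn E tot acyc norb hz
    classical
    by_contra hcon
    push Not at hcon
    have hg : ∀ m : V, ∃ g, g ≠ m ∧ ∀ w, w ≠ g → w ≠ m →
        ∃ c, TransGen (fun a b => E c a b ∧ a ≠ m ∧ b ≠ m) g w := by
      intro m
      obtain ⟨w0, hw0, -⟩ := hcon m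
      have hne : Nonempty {v : V // v ≠ m} := ⟨⟨w0, hw0⟩⟩
      have hcard : Fintype.card {v : V // v ≠ m} < n := by
        rw [← hn]
        exact Fintype.card_subtype_lt (x := m) (by simp)
      have lift : ∀ (c : Fin 3) (a b : {v : V // v ≠ m}), TransGen (fun a b : {v : V // v ≠ m} => E c a.1 b.1) a b →
          TransGen (fun a b => E c a b ∧ a ≠ m ∧ b ≠ m) a.1 b.1 := fun c a b h =>
        TransGen.lift Subtype.val (fun a b h => ⟨h, a.2, b.2⟩) a b h
      have lift' : ∀ (c : Fin 3) (a b : {v : V // v ≠ m}), TransGen (fun a b : {v : V // v ≠ m} => E c a.1 b.1) a b →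
          TransGen (E c) a.1 b.1 := fun c a b h => TransGen.lift Subtype.val (fun a b h => h) a b h
      obtain ⟨g, hg⟩ := IH _ hcard {v : V // v ≠ m} rfl (fun c a b => E c a.1 b.1)
        (fun u v huv => tot u.1 v.1 (fun e => huv (Subtype.ext e)))
        (fun c v h => acyc c v.1 (lift' c v v h))
        (fun c d e u v w h1 h2 h3 k1 k2 k3 => norb c d e u.1 v.1 w.1 h1 h2 h3 k1 k2 k3) (by
          refine hz.imp (fun h1 h2 => h1 ?_) (Or.imp (fun h1 h2 => h1 ?_) (Or.imp (fun h1 h2 => h1 ?_) (fun h1 h2 => h1 ?_)))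
          · obtain ⟨a, b, u, v, w, k1, k2, k3, k4, k5, k6, k7⟩ := h2
            exact ⟨a, b, u.1, v.1, w.1, k1, k2, k3, k4, k5, k6, lift' a u v k7⟩
          · obtain ⟨a, b, u, v, w, k1, k2, k3, k4, k5, k6, k7⟩ := h2
            exact ⟨a, b, u.1, v.1, w.1, k1, k2, k3, k4, k5, k6, lift' a u v k7⟩
          · obtain ⟨r, ⟨u, k1⟩, ⟨d, k2, u', k3⟩, k4⟩ := h2
            refine ⟨r.1, ⟨u.1, k1⟩, ⟨d, k2, u'.1, k3⟩, fun c => ?_⟩
            obtain ⟨v, hv⟩ := k4 c
            exact ⟨v.1, hv⟩
          · obtain ⟨r, ⟨u, k1⟩, ⟨d, k2, u', k3⟩, k4⟩ := h2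
            refine ⟨r.1, ⟨u.1, k1⟩, ⟨d, k2, u'.1, k3⟩, fun c => ?_⟩
            obtain ⟨v, hv⟩ := k4 c
            exact ⟨v.1, hv⟩)
      refine ⟨g.1, g.2, fun w hwg hwm => ?_⟩
      obtain ⟨c, hc⟩ := hg ⟨w, hwm⟩ (fun e => hwg (congrArg Subtype.val e))
      exact ⟨c, lift c _ _ hc⟩
    choose g hgm hg using hg
    have hmono : ∀ {c : Fin 3} {m p q : V}, TransGen (fun a b => E c a b ∧ a ≠ m ∧ b ≠ m) p q → TransGen (E c) p q :=
      fun h => TransGen.mono (fun _ _ h => h.1) _ _ h
    have hhole : ∀ c m, ¬ TransGen (E c) (g m) m := by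
      intro c m h
      obtain ⟨w, hw, hw2⟩ := hcon (g m)
      by_cases hwm : w = m
      · exact hw2 c (hwm ▸ h)
      · obtain ⟨d, hd⟩ := hg m w hw hwm
        exact hw2 d (hmono hd)
    have hinj : Function.Injective g := by
      intro m m' he
      by_contra hne
      obtain ⟨d, hd⟩ := hg m m' (fun e => hgm m' (by rw [← he, ← e])) (fun e => hne e.symm)
      rw [he] at hd
      exact hhole d m' (hmono hd)
    have hbij : Function.Bijective g := Finite.injective_iff_bijective.1 hinj
    have H : Rg E (Equiv.ofBijective g hbij) :=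
      { tot := tot
        acyc := acyc
        norb := norb
        nofix := fun v => hgm v
        hole := fun c v => hhole c v
        full := by
          intro u v huv hu
          obtain ⟨m, rfl⟩ := hbij.2 u
          have hvm : v ≠ m := by
            rintro rfl
            exact hu rfl
          obtain ⟨c, hc⟩ := hg m v huv.symm hvm
          exact ⟨c, hmono hc⟩
        dom := by
          intro m
          set σ := Equiv.ofBijective g hbij with hσ
          have e1 : σ (σ.symm m) = m := Equiv.apply_symm_apply σ m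
          have h1 : σ.symm m ≠ m := by
            intro e
            rw [e] at e1
            exact hgm m e1
          have h2 : σ.symm m ≠ g m := by
            intro e
            rcases tot m (g m) (hgm m).symm with ⟨c, hc⟩ | ⟨c, hc⟩
            · refine hhole c (σ.symm m) ?_
              have e2 : g (σ.symm m) = m := e1
              rw [e2, e]
              exact TransGen.single hc
            · exact hhole c m (TransGen.single hc)
          exact hg m (σ.symm m) h2 h1 }
    rcases hz with h | h | h | h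
    · exact h (byp1_of_rg H z)
    · exact h (byp2_of_rg H z)
    · exact h (out3_of_rg H z)
    · exact h (in3_of_rg H z)

theorem main {V : Type*} [Finite V] [Nonempty V] (E : Fin 3 → V → V → Prop) (z : Fin 3)
    (tot : ∀ u v, u ≠ v → (∃ c, E c u v) ∨ ∃ c, E c v u) (acyc : ∀ c v, ¬ TransGen (E c) v v)
    (norb : ∀ c d e u v w, c ≠ d → d ≠ e → c ≠ e → E c u v → E d v w → E e w u → False)
    (hz : ¬ Byp1 E z ∨ ¬ Byp2 E z ∨ ¬ Out3 E z ∨ ¬ In3 E z) : ∃ v, ∀ w, w ≠ v → ∃ c, TransGen (E c) v w := by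
  have := Fintype.ofFinite V
  exact main_aux z _ V rfl E tot acyc norb hz

end Pool.Agent.Helper85.SSW
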